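import Pool.Agent.Helper21.FX.StF

/-!
# Project FX (MP_3bffab_ag), chapter K. Module F4 (sigma is regular modulo E1, E2, rho)
-/

set_option autoImplicit false

namespace Pool.Agent.Helper42.FX

open Pool.Agent.Helper72.FX Pool.Agent.Helper21.FX

noncomputable section

/-- put the variables with `S i` to zero -/
private def ev (S : Fin 10 → Bool) : P0 →ₐ[ℂ] P0 :=
  MvPolynomial.aeval (fun i => if S i then 0 else MvPolynomial.X i)

private theorem ev_X (S : Fin 10 → Bool) (i : Fin 10) :
    ev S (MvPolynomial.X i) = if S i then 0 else MvPolynomial.X i := by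
  simp only [ev, MvPolynomial.aeval_X]

private theorem sub_ev_mem (S : Fin 10 → Bool) (J : Ideal P0) (hJ : ∀ i, S i = true → MvPolynomial.X i ∈ J) (p : P0) :
    p - ev S p ∈ J := by
  induction p using MvPolynomial.induction_on with
  | C a =>
    have : ev S (MvPolynomial.C a) = MvPolynomial.C a := by
      simp only [ev, MvPolynomial.aeval_C]
      rfl
    rw [this, sub_self]
    exact J.zero_mem
  | add p q hp hq =>
    rw [map_add]
    have : p + q - (ev S p + ev S q) = (p - ev S p) + (q - ev S q) := by ring
    rw [this]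
    exact J.add_mem hp hq
  | mul_X p i hp =>
    rw [map_mul, ev_X]
    by_cases h : S i = true
    · rw [if_pos h, mul_zero, sub_zero]
      exact J.mul_mem_left _ (hJ i h)
    · rw [if_neg h, ← sub_mul]
      exact J.mul_mem_right _ hp

private theorem ev_eq_zero (S : Fin 10 → Bool) (J : Ideal P0) (hJ : ∀ x ∈ J, ev S x = 0)
    (hJ' : ∀ i, S i = true → MvPolynomial.X i ∈ J) (f : P0) (hf : ev S f ≠ 0) (y : P0) (hy : f * y ∈ J) : y ∈ J := by
  have h1 := hJ _ hy
  rw [map_mul] at h1
  have h2 : ev S y = 0 := (mul_eq_zero.1 h1).resolve_left hf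
  have h3 := sub_ev_mem S J hJ' y
  rw [h2, sub_zero] at h3
  exact h3

theorem hF4 : StF4 := by
  intro hD y hy
  have hr3 : ev (fun i => decide (i = 3)) r0 = 0 := by
    rw [r0, ev_X]
    simp
  have hs3 : ev (fun i => decide (i = 3)) s0 = s0 := by
    rw [s0, ev_X]
    simp
  let T : Fin 10 → Bool := fun i => decide (i = 3 ∨ i = 5)
  have hrT : ev T r0 = 0 := by
    rw [r0, ev_X]
    simp [T]
  have hsT : ev T s0 = 0 := by
    rw [s0, ev_X]
    simp [T]
  have haT : ev T a0 = a0 := by
    rw [a0, ev_X]
    simp [T]
  have hbT : ev T b0 = b0 := by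
    rw [b0, ev_X]
    simp [T]
  have htT : ev T t0 = t0 := by
    rw [t0, ev_X]
    simp [T]
  have hs0 : (s0 : P0) ≠ 0 := MvPolynomial.X_ne_zero _
  have hnu : nu a0 b0 t0 ≠ 0 := by
    intro h
    have h1 := congrArg (MvPolynomial.eval (fun i : Fin 10 => if i = 1 then (1 : ℂ) else 0)) h
    simp only [nu, a0, b0, t0, map_sub, map_add, map_mul, map_pow, MvPolynomial.eval_X, map_zero] at h1
    have h2 : ¬ ((2 : Fin 10) = 1) := by decide
    norm_num at h1
    rw [if_neg h2] at h1
    norm_num at h1
  -- first step
  have h1 : ∀ y : P0, s0 * y ∈ Ideal.span {r0} ⊔ Ideal.span {E10} → y ∈ Ideal.span {r0} ⊔ Ideal.span {E10} := by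
    apply swp
    · intro y hy
      refine ev_eq_zero (fun i => decide (i = 3)) (Ideal.span {r0}) ?_ ?_ s0 (by rw [hs3]; exact hs0) y hy
      · intro x hx
        obtain ⟨u, rfl⟩ := Ideal.mem_span_singleton'.1 hx
        rw [map_mul, hr3, mul_zero]
      · intro i hi
        have : i = 3 := by simpa using hi
        subst this
        exact Ideal.mem_span_singleton_self _
    · intro y hy
      refine ev_eq_zero T _ ?_ ?_ E10 ?_ y hy
      · intro x hx
        obtain ⟨u, hu, v, hv, rfl⟩ := Submodule.mem_sup.1 hx
        obtain ⟨u', rfl⟩ := Ideal.mem_span_singleton'.1 hu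
        obtain ⟨v', rfl⟩ := Ideal.mem_span_singleton'.1 hv
        rw [map_add, map_mul, map_mul, hrT, hsT, mul_zero, mul_zero, add_zero]
      · intro i hi
        have : i = 3 ∨ i = 5 := by simpa [T] using hi
        rcases this with h | h
        · subst h
          exact Submodule.mem_sup_left (Ideal.mem_span_singleton_self _)
        · subst h
          exact Submodule.mem_sup_right (Ideal.mem_span_singleton_self _)
      · have : ev T E10 = nu a0 b0 t0 := by
          simp only [E10, E1, nu, map_sub, map_add, map_mul, map_pow, haT, hbT, htT, hrT, hsT, map_ofNat]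
          ring
        rw [this]
        exact hnu
  have h2 : ∀ y : P0, s0 * y ∈ (Ideal.span {r0} ⊔ Ideal.span {E10}) ⊔ Ideal.span {E20} →
      y ∈ (Ideal.span {r0} ⊔ Ideal.span {E10}) ⊔ Ideal.span {E20} := by
    apply swp
    · exact h1
    · intro y hy
      have he : (Ideal.span {r0} ⊔ Ideal.span {E10}) ⊔ Ideal.span {s0} = Ideal.span {nu a0 b0 t0, r0, s0} := by
        have hr : (r0 : P0) ∈ Ideal.span {nu a0 b0 t0, r0, s0} := Ideal.subset_span (by simp)
        have hs : (s0 : P0) ∈ Ideal.span {nu a0 b0 t0, r0, s0} := Ideal.subset_span (by simp)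
        have hn : (nu a0 b0 t0 : P0) ∈ Ideal.span {nu a0 b0 t0, r0, s0} := Ideal.subset_span (by simp)
        apply le_antisymm
        · refine sup_le (sup_le ?_ ?_) ?_
          · rw [Ideal.span_singleton_le_iff_mem]
            exact hr
          · rw [Ideal.span_singleton_le_iff_mem]
            have : (E10 : P0) = nu a0 b0 t0 - n0 * r0 - m0 * s0 := by
              simp only [E10, E1]
              ring
            rw [this]
            exact Ideal.sub_mem _ (Ideal.sub_mem _ hn (Ideal.mul_mem_left _ _ hr)) (Ideal.mul_mem_left _ _ hs)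
          · rw [Ideal.span_singleton_le_iff_mem]
            exact hs
        · rw [Ideal.span_le]
          have hr' : (r0 : P0) ∈ (Ideal.span {r0} ⊔ Ideal.span {E10}) ⊔ Ideal.span {s0} :=
            Submodule.mem_sup_left (Submodule.mem_sup_left (Ideal.mem_span_singleton_self _))
          have he' : (E10 : P0) ∈ (Ideal.span {r0} ⊔ Ideal.span {E10}) ⊔ Ideal.span {s0} :=
            Submodule.mem_sup_left (Submodule.mem_sup_right (Ideal.mem_span_singleton_self _))
          have hs' : (s0 : P0) ∈ (Ideal.span {r0} ⊔ Ideal.span {E10}) ⊔ Ideal.span {s0} :=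
            Submodule.mem_sup_right (Ideal.mem_span_singleton_self _)
          intro x hx
          rcases hx with rfl | rfl | rfl
          · have : (nu a0 b0 t0 : P0) = E10 + n0 * r0 + m0 * s0 := by
              simp only [E10, E1]
              ring
            rw [this]
            exact Ideal.add_mem _ (Ideal.add_mem _ he' (Ideal.mul_mem_left _ _ hr')) (Ideal.mul_mem_left _ _ hs')
          · exact hr'
          · exact hs'
      rw [he] at hy ⊢
      exact hD y hy
  have he : (Ideal.span {r0} ⊔ Ideal.span {E10}) ⊔ Ideal.span {E20} = Ideal.span {E10, E20, r0} := by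
    rw [← Ideal.span_union, ← Ideal.span_union]
    congr 1
    ext x
    simp only [Set.mem_union, Set.mem_singleton_iff, Set.mem_insert_iff]
    tauto
  rw [← he] at hy ⊢
  exact h2 y hy

end

end Pool.Agent.Helper42.FX
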