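import Pool.Agent.Helper41.FX.StK2

/-!
# Project FX (MP_3bffab_ag), chapter K. Module CKN (sign)
-/

set_option autoImplicit false

namespace Pool.Agent.Helper42.FX

open Pool.Agent.Helper41.FX Pool.Agent.Helper72.FX

theorem hCKN : StCKN := by
  intro A _ x M _ _
  have hr : LinearMap.range (LinearMap.lsmul A M (-x)) = LinearMap.range (LinearMap.lsmul A M x) := by
    rw [map_neg]
    exact LinearMap.range_neg _
  have hk : LinearMap.ker (LinearMap.lsmul A M (-x)) = LinearMap.ker (LinearMap.lsmul A M x) := by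
    rw [map_neg]
    ext y
    simp
  exact ⟨⟨Submodule.quotEquivOfEq _ _ hr⟩, ⟨LinearEquiv.ofEq _ _ hk⟩⟩

end Pool.Agent.Helper42.FX
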