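import Pool.Agent.Helper87.FX.StA

/-!
# Project FX (MP_3bffab_ag), chapter S. Module DSC (disc theorem)
-/

set_option autoImplicit false

namespace Pool.Agent.Helper42.FX

open Pool.Agent.Helper87.FX
open Set Topology Metric Filter
open scoped ContDiff

/-- A continuous family of injective linear maps on a compact set is uniformly bounded below. -/
theorem exists_lower (E : Type) [NormedAddCommGroup E] [NormedSpace ℝ E] [FiniteDimensional ℝ E] (K : Set E)
    (hK : IsCompact K) (A : E → E →L[ℝ] E) (hA : ContinuousOn A K) (hi : ∀ x ∈ K, Function.Injective (A x)) :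
    ∃ m : ℝ, 0 < m ∧ ∀ x ∈ K, ∀ v, m * ‖v‖ ≤ ‖A x v‖ := by
  have hS : IsCompact (K ×ˢ sphere (0 : E) 1) := hK.prod (isCompact_sphere _ _)
  rcases (K ×ˢ sphere (0 : E) 1).eq_empty_or_nonempty with h | h
  · refine ⟨1, one_pos, fun x hx v => ?_⟩
    by_cases hv : v = 0
    · subst hv
      simp
    · exfalso
      have hn : ‖v‖ ≠ 0 := norm_ne_zero_iff.2 hv
      have : (x, ‖v‖⁻¹ • v) ∈ K ×ˢ sphere (0 : E) 1 := by
        refine ⟨hx, ?_⟩
        simp only [mem_sphere_iff_norm, sub_zero, norm_smul, norm_inv, norm_norm]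
        exact inv_mul_cancel₀ hn
      rw [h] at this
      exact this
  · have hc : ContinuousOn (fun z : E × E => ‖A z.1 z.2‖) (K ×ˢ sphere (0 : E) 1) := by
      apply ContinuousOn.norm
      apply ContinuousOn.clm_apply
      · exact hA.comp continuousOn_fst (fun z hz => hz.1)
      · exact continuousOn_snd
    obtain ⟨z, hz, hmin⟩ := hS.exists_isMinOn h hc
    refine ⟨‖A z.1 z.2‖, ?_, fun x hx v => ?_⟩
    · rw [norm_pos_iff]
      intro h0
      have h1 : z.2 = 0 := hi z.1 hz.1 (by rw [h0, map_zero])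
      have h2 : ‖z.2‖ = 1 := by simpa using hz.2
      rw [h1, norm_zero] at h2
      exact zero_ne_one h2
    · by_cases hv : v = 0
      · subst hv
        simp
      · have hn : ‖v‖ ≠ 0 := norm_ne_zero_iff.2 hv
        have hmem : (x, ‖v‖⁻¹ • v) ∈ K ×ˢ sphere (0 : E) 1 := by
          refine ⟨hx, ?_⟩
          simp only [mem_sphere_iff_norm, sub_zero, norm_smul, norm_inv, norm_norm]
          exact inv_mul_cancel₀ hn
        have h1 : ‖A z.1 z.2‖ ≤ ‖A x (‖v‖⁻¹ • v)‖ := hmin hmem
        rw [map_smul, norm_smul, norm_inv, norm_norm] at h1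
        calc ‖A z.1 z.2‖ * ‖v‖ ≤ (‖v‖⁻¹ * ‖A x v‖) * ‖v‖ := mul_le_mul_of_nonneg_right h1 (norm_nonneg _)
          _ = ‖A x v‖ := by field_simp

theorem hDSC : StCMP → StSTP → StSCL → StDSC := by
  intro hC hS hL E _ _ _ φ r R0 hr hrR hφ
  have key : ∀ φ : E → E, Loc φ R0 → φ 0 = 0 → ∃ θ : E → E, Dif θ ∧ ∀ x ∈ closedBall (0 : E) r, θ x = φ x := by
    intro φ hφ h0
    obtain ⟨R, hR⟩ : ∃ R, R = (r + R0) / 2 := ⟨_, rfl⟩
    have hrR' : r < R := by rw [hR]; linarith
    have hRR0 : R < R0 := by rw [hR]; linarith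
    have hR0 : 0 < R0 := by linarith
    have hRpos : 0 < R := by linarith
    have hsub : closedBall (0 : E) R ⊆ ball 0 R0 := closedBall_subset_ball hRR0
    -- the bump function
    let β : ContDiffBump (0 : E) := ⟨r, R, hr, hrR'⟩
    have hβs : ContDiff ℝ ∞ β := β.contDiff
    have hβ1 : ∀ x ∈ closedBall (0 : E) r, β x = 1 := fun x hx => β.one_of_mem_closedBall hx
    have hβ0 : ∀ x, x ∉ ball (0 : E) R → β x = 0 := fun x hx => by
      apply β.zero_of_le_dist
      rw [mem_ball, not_lt] at hx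
      exact hx
    have hβa : ∀ x, |β x| ≤ 1 := fun x => by
      rw [abs_of_nonneg β.nonneg]
      exact β.le_one
    have hcs : HasCompactSupport (fderiv ℝ β) := β.hasCompactSupport.fderiv ℝ
    have hcf : Continuous (fderiv ℝ β) := hβs.continuous_fderiv (by simp)
    obtain ⟨C, hCb⟩ := hcs.exists_bound_of_continuous hcf
    have hC0 : 0 ≤ C := (norm_nonneg _).trans (hCb 0)
    -- the derivative
    have hdc : ContinuousOn (fderiv ℝ φ) (ball 0 R0) := hφ.sm.continuousOn_fderiv_of_isOpen isOpen_ball (by simp)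
    have hdc' : ContinuousOn (fderiv ℝ φ) (closedBall 0 R) := hdc.mono hsub
    obtain ⟨m, hm, hmb⟩ := exists_lower E (closedBall 0 R) (isCompact_closedBall _ _) (fderiv ℝ φ) hdc'
      (fun x hx => hφ.imm x (hsub hx))
    have hCR : 0 < 1 + C * R := by positivity
    obtain ⟨η, hη⟩ : ∃ η, η = m / (2 * (1 + C * R)) := ⟨_, rfl⟩
    have hη0 : 0 < η := by rw [hη]; positivity
    have huc := (isCompact_closedBall (0 : E) R).uniformContinuousOn_of_continuous hdc'
    rw [Metric.uniformContinuousOn_iff] at huc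
    obtain ⟨δ, hδ, hδb⟩ := huc η hη0
    obtain ⟨a, ha, ha1, ha0⟩ := hL E φ R0 hR0 hφ h0
    obtain ⟨N, hN⟩ := exists_nat_gt (R / δ)
    have hN0 : (0 : ℝ) < N := lt_trans (by positivity) hN
    have hNδ : R / N < δ := by
      rw [div_lt_iff₀ hδ] at hN
      rw [div_lt_iff₀ hN0]
      linarith
    have hsk : ∀ k : ℕ, k ≤ N → ((k : ℝ) / N) ∈ Icc (0 : ℝ) 1 := fun k hk => by
      constructor
      · positivity
      · rw [div_le_one hN0]
        exact_mod_cast hk
    have hsx : ∀ k : ℕ, k ≤ N → ∀ x ∈ closedBall (0 : E) R, ((k : ℝ) / N) • x ∈ closedBall (0 : E) R := by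
      intro k hk x hx
      rw [mem_closedBall_zero_iff] at hx ⊢
      obtain ⟨h1, h2⟩ := hsk k hk
      rw [norm_smul, Real.norm_of_nonneg h1]
      calc (k : ℝ) / N * ‖x‖ ≤ 1 * ‖x‖ := mul_le_mul_of_nonneg_right h2 (norm_nonneg _)
        _ ≤ R := by rw [one_mul]; exact hx
    have ind : ∀ k : ℕ, k ≤ N → ∃ θ : E → E, Dif θ ∧ ∀ x ∈ closedBall (0 : E) r, θ x = a ((k : ℝ) / N) x := by
      intro k
      induction k with
      | zero =>
        intro _
        refine ⟨fun x => fderiv ℝ φ 0 x, (hC E).2.1 _ (hφ.imm 0 (mem_ball_self hR0)), fun x _ => ?_⟩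
        rw [Nat.cast_zero, zero_div, ha0]
      | succ k ih =>
        intro hk
        obtain ⟨θ, hθ, hθa⟩ := ih (by omega)
        obtain ⟨l1, l2, l3⟩ := ha ((k : ℝ) / N) (hsk k (by omega))
        obtain ⟨p1, p2, p3⟩ := ha (((k + 1 : ℕ) : ℝ) / N) (hsk (k + 1) hk)
        obtain ⟨ψ, hψ, hψa⟩ := hS E (a ((k : ℝ) / N)) (a (((k + 1 : ℕ) : ℝ) / N)) β r R R0 m η C hr hrR' hRR0 hm l1
          p1.sm hβs hβ1 hβ0 hβa hCb (by
            intro x hx v
            rw [l3 x (hsub hx)]
            exact hmb _ (hsx k (by omega) x hx) v) (by rw [l2, p2]) (by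
            intro x hx
            rw [l3 x (hsub hx), p3 x (hsub hx)]
            have h1 := hδb _ (hsx (k + 1) hk x hx) _ (hsx k (by omega) x hx) (by
              rw [dist_eq_norm, ← sub_smul, norm_smul]
              have h2 : (((k + 1 : ℕ) : ℝ) / N) - (k : ℝ) / N = 1 / N := by
                push_cast
                ring
              rw [h2, Real.norm_of_nonneg (by positivity)]
              rw [mem_closedBall_zero_iff] at hx
              calc 1 / (N : ℝ) * ‖x‖ ≤ 1 / (N : ℝ) * R := mul_le_mul_of_nonneg_left hx (by positivity)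
                _ = R / N := by ring
                _ < δ := hNδ)
            rw [dist_eq_norm] at h1
            exact h1.le) (by
            rw [hη]
            apply le_of_eq
            field_simp)
        refine ⟨fun x => ψ (θ x), (hC E).1 ψ θ hψ hθ, fun x hx => ?_⟩
        simp only
        rw [hθa x hx]
        exact hψa x hx
    obtain ⟨θ, hθ, hθa⟩ := ind N le_rfl
    refine ⟨θ, hθ, fun x hx => ?_⟩
    rw [hθa x hx, div_self hN0.ne', ha1]
  have hsub : Loc (fun x => φ x - φ 0) R0 := by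
    refine ⟨hφ.sm.sub contDiffOn_const, ?_, ?_⟩
    · intro x hx y hy hxy
      exact hφ.inj hx hy (sub_left_injective hxy)
    · intro x hx
      rw [fderiv_sub_const]
      exact hφ.imm x hx
  obtain ⟨θ, hθ, h2⟩ := key _ hsub (sub_self _)
  refine ⟨fun x => θ x + φ 0, (hC E).2.2.1 θ (φ 0) hθ, fun x hx => ?_⟩
  simp only [h2 x hx, sub_add_cancel]

end Pool.Agent.Helper42.FX
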