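import Pool.Agent.Helper84.FX.StX

/-!
# Project FX (MP_3bffab_ag), chapter T. Module GR (where the gradients do not vanish)
-/

set_option autoImplicit false

namespace Pool.Agent.Helper42.FX

open Pool.Agent.Helper84.FX Pool.Agent.Helper72.FX

theorem hGR : StKF → StGR := by
  intro hKF
  refine ⟨fun a b t ht ha hb h0 => ?_, fun U z hz => ?_⟩
  · subst ha
    have h1 : nu 0 b t = b * (2 + t * b) - 0 := by
      simp only [nu]
      ring
    have h2 : b * (2 + t * b) = 0 := by
      rw [← h0, h1]
      ring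
    have hb' : t * b = -1 := by linear_combination hb
    rw [hb'] at h2
    have h3 : b = 0 := by linear_combination h2
    rw [h3, mul_zero] at hb'
    exact absurd hb' (by norm_num)
  · by_contra hcon
    simp only [not_or, not_not] at hcon
    obtain ⟨h1, h2, h3⟩ := hcon
    obtain ⟨_, hE1, hE2⟩ := hz
    have hK := hKF (z 0) (z 1) (z 2)
    simp only [EE1, E1] at hE1
    simp only [EE2, E2, kappa] at hE2
    simp only [kappa] at hK
    generalize kx (z 0) (z 1) (z 2) = X at *
    generalize ky (z 0) (z 1) (z 2) = Y at *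
    generalize kz (z 0) (z 1) (z 2) = Z at *
    generalize nu (z 0) (z 1) (z 2) = N at *
    have hfin : (1 : ℂ) = 0 := by
      linear_combination (-(-1 + z 5 * (z 2 * z 6 * Y + z 2 * z 3 * z 8))) * h2 +
        (z 2 * (z 5 * (z 6 * Z + z 3 * z 9))) * h3 + (z 2 * z 5 * z 6) * hK -
        (z 2 * z 5 * z 6 * (z 2 * X * Y - Z ^ 2)) * hE1 + (z 2 * z 5 * z 3) * hE2
    exact one_ne_zero hfin

end Pool.Agent.Helper42.FX
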