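import Pool.Agent.Helper71.FX.St

/-!
# Project FX, module GZ: vanishing of the frequency coefficients
-/

open MeasureTheory Filter Topology
open scoped FourierTransform RealInnerProductSpace Matrix ComplexConjugate ENNReal

noncomputable section

namespace Pool.Agent.Helper42.FX

open Wav Wav.ND Pool.Agent.Helper71.FX

private lemma coeff_zero {n : ℕ} {A : Matrix (Fin n) (Fin n) ℝ} (hA : A.det ≠ 0) {Φ Ψ : E n → ℂ}
    (hΦ : MemLp Φ 2 volume) (hΨ : MemLp Ψ 2 volume) (i j : ℤ)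
    (horth : ∀ k k' : Fin n → ℤ, ∫ ξ, conj (faff A Φ i k ξ) * faff A Ψ j k' ξ = 0) (v : E n)
    (hv : ∀ p q : Fin n → ℤ, act (Aᵀ ^ i) (ivec p) = act (Aᵀ ^ j) (ivec q) →
      ⟪v, act (Aᵀ ^ i) (ivec p)⟫ = 0) (k k' : Fin n → ℤ) (s : ℝ) :
    ∫ ξ, conj (faff A Φ i k ξ) * faff A Ψ j k' ξ * ee (s * ⟪v, ξ⟫) = 0 := by
  set u : E n := act (A ^ (-i)) (ivec k) - act (A ^ (-j)) (ivec k') with hu
  simp only [faff_mul, ← hu]
  have e : ∀ ξ : E n, (((|A.det| ^ (-(i : ℝ) / 2) : ℝ) : ℂ) *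
      ((|A.det| ^ (-(j : ℝ) / 2) : ℝ) : ℂ)) * (G A Φ Ψ i j ξ * ee ⟪u, ξ⟫) * ee (s * ⟪v, ξ⟫) =
      (((|A.det| ^ (-(i : ℝ) / 2) : ℝ) : ℂ) * ((|A.det| ^ (-(j : ℝ) / 2) : ℝ) : ℂ)) *
        (G A Φ Ψ i j ξ * ee ⟪u + s • v, ξ⟫) := by
    intro ξ
    rw [inner_add_left, real_inner_smul_left, ee_add]
    ring
  simp only [e]
  rw [integral_const_mul, I_zero hA hΦ hΨ i j horth (u + s • v), mul_zero]
  intro p q hpq
  obtain ⟨m1, hm1⟩ := inner_ivec k p
  obtain ⟨m2, hm2⟩ := inner_ivec k' q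
  refine ⟨m1 - m2, ?_⟩
  rw [inner_add_left, real_inner_smul_left, hv p q hpq, mul_zero, add_zero, hu, inner_sub_left,
    inner_lattice hA, hm1, hpq, inner_lattice hA, hm2]
  push_cast
  ring

private lemma ee_deriv (a s : ℝ) :
    HasDerivAt (fun s : ℝ => ee (s * a)) (2 * Real.pi * Complex.I * a * ee (s * a)) s := by
  unfold ee
  have h1 : HasDerivAt (fun s : ℝ => 2 * (Real.pi : ℂ) * Complex.I * ((s * a : ℝ) : ℂ))
      (2 * Real.pi * Complex.I * a) s := by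
    have h2 : HasDerivAt (fun s : ℝ => ((s * a : ℝ) : ℂ)) ((a : ℝ) : ℂ) s := by
      have h3 : HasDerivAt (fun s : ℝ => s * a) a s := by
        simpa using (hasDerivAt_id s).mul_const a
      exact h3.ofReal_comp
    exact h2.const_mul _
  have h4 := h1.cexp
  exact (mul_comm _ (2 * (Real.pi : ℂ) * Complex.I * a)) ▸ h4

/-- GZ. -/
theorem pGZ (hLF : StLF) : StGZ := by
  intro n L N A ψ hG p q w hpq hw
  have hdet := expansive_det hG.exp
  have h1 : ∀ l, Integrable (ψ l) := fun l => (hG.loc l).integrable hG.big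
  have h2 : ∀ l, MemLp (ψ l) 2 volume := fun l => (hG.loc l).memLp
  obtain ⟨b, hb⟩ := (transfer hdet h1 h2).1 hG.on
  have hmem : ∀ l, MemLp (𝓕 (ψ l)) 2 (volume : Measure (E n)) :=
    fun l => N2Aux.fourier_memLp (h1 l) (h2 l)
  obtain ⟨hLF1, hLF2⟩ := hLF n L N A ψ hG
  have horth := N1.orth_of_ne (Ψ := fun l => 𝓕 (ψ l)) b hb q.1 p.1 (Ne.symm hpq)
  have hF := coeff_zero hdet (hmem q.1) (hmem p.1) q.2.1 p.2.1 horth w (by
    intro a c hac
    exact hw _ ⟨c, hac.symm⟩ ⟨a, rfl⟩) q.2.2 p.2.2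
  set g : E n → ℂ := fun ξ => conj (fa A ψ q ξ) * fa A ψ p ξ with hg
  have hgi : Integrable g := (hLF2 q).star.integrable_mul (hLF2 p)
  have hhi : Integrable (fun ξ => conj (fa A ψ q ξ) * (((⟪w, ξ⟫ : ℝ) : ℂ) * fa A ψ p ξ)) :=
    (hLF2 q).star.integrable_mul (hLF1 p w)
  have hee : ∀ s : ℝ, Continuous fun ξ : E n => ee (s * ⟪w, ξ⟫) := fun s =>
    ee_cont.comp (continuous_const.mul (Continuous.inner continuous_const continuous_id))
  have hmeas : ∀ s : ℝ, AEStronglyMeasurable (fun ξ => g ξ * ee (s * ⟪w, ξ⟫)) volume := fun s =>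
    hgi.aestronglyMeasurable.mul (hee s).aestronglyMeasurable
  have hint : ∀ s : ℝ, Integrable (fun ξ => g ξ * ee (s * ⟪w, ξ⟫)) := fun s => by
    refine hgi.norm.mono' (hmeas s) (Filter.Eventually.of_forall fun ξ => ?_)
    rw [norm_mul, ee_norm, mul_one]
  have hF'm : AEStronglyMeasurable
      (fun ξ => g ξ * (2 * Real.pi * Complex.I * ((⟪w, ξ⟫ : ℝ) : ℂ) * ee (0 * ⟪w, ξ⟫)))
      (volume : Measure (E n)) := by
    refine hgi.aestronglyMeasurable.mul (Continuous.aestronglyMeasurable ?_)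
    refine Continuous.mul (continuous_const.mul ?_) (hee 0)
    exact Complex.continuous_ofReal.comp (Continuous.inner continuous_const continuous_id)
  have key := hasDerivAt_integral_of_dominated_loc_of_deriv_le (μ := (volume : Measure (E n)))
    (F := fun (s : ℝ) ξ => g ξ * ee (s * ⟪w, ξ⟫))
    (F' := fun (s : ℝ) ξ => g ξ * (2 * Real.pi * Complex.I * ((⟪w, ξ⟫ : ℝ) : ℂ) *
      ee (s * ⟪w, ξ⟫))) (x₀ := (0 : ℝ)) (s := Set.univ)
    (bound := fun ξ => 2 * Real.pi *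
      ‖conj (fa A ψ q ξ) * (((⟪w, ξ⟫ : ℝ) : ℂ) * fa A ψ p ξ)‖)
    Filter.univ_mem (Filter.Eventually.of_forall hmeas) (hint 0) hF'm
    (Filter.Eventually.of_forall fun ξ s _ => by
      simp only [hg]
      rw [norm_mul, norm_mul, norm_mul, norm_mul, norm_mul, norm_mul, norm_mul, norm_mul, ee_norm,
        Complex.norm_I, Complex.norm_real, Complex.norm_real, Real.norm_eq_abs,
        abs_of_pos Real.pi_pos]
      simp
      apply le_of_eq
      ring)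
    (hhi.norm.const_mul _)
    (Filter.Eventually.of_forall fun ξ s _ => by
      exact (ee_deriv ⟪w, ξ⟫ s).const_mul (g ξ))
  have hz : (fun s : ℝ => ∫ ξ, g ξ * ee (s * ⟪w, ξ⟫)) = fun _ => (0 : ℂ) := by
    funext s
    exact hF s
  have h5 := key.2
  rw [hz] at h5
  have h6 := h5.unique (hasDerivAt_const (0 : ℝ) (0 : ℂ))
  have h7 : ∀ ξ : E n, g ξ * (2 * Real.pi * Complex.I * ((⟪w, ξ⟫ : ℝ) : ℂ) * ee (0 * ⟪w, ξ⟫)) =
      (2 * Real.pi * Complex.I) * (conj (fa A ψ q ξ) * (((⟪w, ξ⟫ : ℝ) : ℂ) * fa A ψ p ξ)) := by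
    intro ξ
    have h8 : ee (0 * ⟪w, ξ⟫) = 1 := by
      unfold ee
      simp
    rw [h8]
    simp only [hg]
    ring
  simp only [h7] at h6
  rw [integral_const_mul] at h6
  have h9 : (2 * Real.pi * Complex.I : ℂ) ≠ 0 := by
    simp [Real.pi_ne_zero]
  exact (mul_eq_zero.mp h6).resolve_left h9

end Pool.Agent.Helper42.FX
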