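import Pool.Agent.Helper87.FX.StC

/-!
# Project FX (MP_3bffab_ag), chapter S. Module HPL (difference quotients of a polynomial)
-/

set_option autoImplicit false

namespace Pool.Agent.Helper42.FX

open Pool.Agent.Helper87.FX
open Set Topology Metric Filter
open scoped ContDiff

/-- Polynomial functions are smooth over the reals. -/
theorem contDiff_ev {n : ℕ} (F : MvPolynomial (Fin n) ℂ) :
    ContDiff ℝ ∞ (fun z : Fin n → ℂ => MvPolynomial.eval z F) := by
  induction F using MvPolynomial.induction_on with
  | C a => simpa only [MvPolynomial.eval_C] using contDiff_const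
  | add p q hp hq => simpa only [map_add] using hp.add hq
  | mul_X p i hp =>
    simp only [map_mul, MvPolynomial.eval_X]
    exact hp.mul (contDiff_apply ℝ ℂ i)

theorem mv_apply {n : ℕ} (z : Fin n → ℂ) (j : Fin n) (w : ℂ) (i : Fin n) :
    mv z j w i = z i + if i = j then w else 0 := by
  simp only [mv, Pi.add_apply, Pi.single_apply]

theorem mv_mv {n : ℕ} (z : Fin n → ℂ) (j : Fin n) (w : ℂ) : mv (mv z j w) j (-w) = z := by
  funext i
  rw [mv_apply, mv_apply]
  split_ifs <;> ring

/-- One variable. -/
theorem exists_quot {n : ℕ} (j : Fin n) (F : MvPolynomial (Fin n) ℂ) :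
    ∃ h : (Fin n → ℂ) → ℂ → ℂ, ContDiff ℝ ∞ (fun q : (Fin n → ℂ) × ℂ => h q.1 q.2) ∧
      (∀ z w, MvPolynomial.eval (mv z j w) F = MvPolynomial.eval z F + w * h z w) ∧
      ∀ z, h z 0 = dj F z j := by
  induction F using MvPolynomial.induction_on with
  | C a =>
    refine ⟨fun _ _ => 0, contDiff_const, fun z w => ?_, fun z => ?_⟩
    · simp only [MvPolynomial.eval_C, mul_zero, add_zero]
    · simp only [dj, MvPolynomial.pderiv_C, map_zero]
  | add p q hp hq =>
    obtain ⟨h1, a1, b1, c1⟩ := hp
    obtain ⟨h2, a2, b2, c2⟩ := hq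
    refine ⟨fun z w => h1 z w + h2 z w, a1.add a2, fun z w => ?_, fun z => ?_⟩
    · simp only [map_add, b1, b2]
      ring
    · simp only [dj, map_add] at c1 c2 ⊢
      rw [c1, c2]
  | mul_X p i hp =>
    obtain ⟨h, a, b, c⟩ := hp
    refine ⟨fun z w => h z w * (z i + if i = j then w else 0) + (if i = j then MvPolynomial.eval z p else 0),
      ?_, fun z w => ?_, fun z => ?_⟩
    · have hz : ContDiff ℝ ∞ (fun q : (Fin n → ℂ) × ℂ => q.1 i) := (contDiff_apply ℝ ℂ i).comp contDiff_fst
      have he : ContDiff ℝ ∞ (fun q : (Fin n → ℂ) × ℂ => MvPolynomial.eval q.1 p) := (contDiff_ev p).comp contDiff_fst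
      by_cases hij : i = j
      · simp only [if_pos hij]
        exact (a.mul (hz.add contDiff_snd)).add he
      · simp only [if_neg hij, add_zero]
        exact a.mul hz
    · simp only [map_mul, MvPolynomial.eval_X, b, mv_apply]
      split_ifs <;> ring
    · have hp : MvPolynomial.pderiv j (p * MvPolynomial.X i) =
          MvPolynomial.pderiv j p * MvPolynomial.X i + p * (if i = j then 1 else 0) := by
        rw [MvPolynomial.pderiv_mul, MvPolynomial.pderiv_X]
        congr 2
        rw [Pi.single_apply]
      simp only [dj] at c ⊢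
      rw [hp, c]
      simp only [map_add, map_mul, MvPolynomial.eval_X]
      split_ifs <;> simp

theorem hHPL : StHPL := by
  intro n F
  choose H a b c using fun j : Fin n => exists_quot j F
  refine ⟨H, a, b, c, fun j z w => ?_⟩
  by_cases hw : w = 0
  · subst hw
    have : mv z j 0 = z := by
      funext i
      rw [mv_apply]
      split_ifs <;> ring
    rw [this, neg_zero]
  · have h1 := b j z w
    have h2 := b j (mv z j w) (-w)
    rw [mv_mv] at h2
    have h3 : w * H j (mv z j w) (-w) = w * H j z w := by linear_combination h2 + h1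
    exact mul_left_cancel₀ hw h3

end Pool.Agent.Helper42.FX
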