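import Pool.Agent.Helper87.FX.StB

/-!
# Project FX (MP_3bffab_ag), chapter S. Module KEY (cells of the integer grid)
-/

set_option autoImplicit false

namespace Pool.Agent.Helper42.FX

open Pool.Agent.Helper87.FX
open Set Topology Metric Filter

theorem key_low (t : ℝ) : (⌊t⌋ + ⌈t⌉) / 2 = ⌊t⌋ := by
  have h1 := Int.floor_le_ceil t
  have h2 := Int.ceil_le_floor_add_one t
  omega

theorem key_up (t : ℝ) : (⌊t⌋ + ⌈t⌉ + 1) / 2 = ⌈t⌉ := by
  have h1 := Int.floor_le_ceil t
  have h2 := Int.ceil_le_floor_add_one t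
  omega

theorem mem_cell_iff {d : ℕ} (c : Fin d → ℤ) (x : Fin d → ℝ) :
    x ∈ cell c ↔ ∀ i, c i / 2 ≤ ky x i / 2 ∧ (ky x i + 1) / 2 ≤ (c i + 1) / 2 := by
  simp only [cell, mem_setOf_eq, ky, key_low, key_up, Int.le_floor, Int.ceil_le]

theorem hKEY : StKEY := by
  intro d
  refine ⟨fun c => ?_, fun x => ?_, fun c x y hxy hx => ?_, fun c x hx hne => ?_, fun c x y hx hy => ?_⟩
  · simp only [cell, setOf_forall]
    exact isClosed_iInter fun i => (isClosed_le continuous_const (continuous_apply i)).inter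
      (isClosed_le (continuous_apply i) continuous_const)
  · rw [mem_cell_iff]
    exact fun i => ⟨le_rfl, le_rfl⟩
  · rw [mem_cell_iff] at hx ⊢
    rw [← hxy]
    exact hx
  · rw [mem_cell_iff] at hx
    have hev : ∀ i, c i % 2 = 0 → ky x i = c i := fun i hi => by
      obtain ⟨h1, h2⟩ := hx i
      omega
    have hodd : ∀ i, c i % 2 = 1 → ky x i % 2 = 1 → ky x i = c i := fun i hi hj => by
      obtain ⟨h1, h2⟩ := hx i
      omega
    have hsub : (Finset.univ.filter fun i => ky x i % 2 = 1) ⊆ (Finset.univ.filter fun i => c i % 2 = 1) := by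
      intro i hi
      rw [Finset.mem_filter] at hi ⊢
      refine ⟨Finset.mem_univ _, ?_⟩
      by_contra h
      have h0 : c i % 2 = 0 := by omega
      have := hev i h0
      omega
    refine lt_of_le_of_ne (Finset.card_le_card hsub) ?_
    intro heq
    have hset := Finset.eq_of_subset_of_card_le hsub (le_of_eq heq.symm)
    apply hne
    funext i
    by_cases h : c i % 2 = 0
    · exact hev i h
    · have h1 : c i % 2 = 1 := by omega
      have h2 : i ∈ (Finset.univ.filter fun i => ky x i % 2 = 1) := by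
        rw [hset, Finset.mem_filter]
        exact ⟨Finset.mem_univ _, h1⟩
      exact hodd i h1 (Finset.mem_filter.1 h2).2
  · rw [mem_cell_iff] at hx hy ⊢
    intro i
    obtain ⟨h1, h2⟩ := hx i
    obtain ⟨h3, h4⟩ := hy i
    exact ⟨h1.trans h3, h4.trans h2⟩

end Pool.Agent.Helper42.FX
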